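import Pool.Agent.H30.EE.TargetsH
import Pool.Agent.H64.SC.Api

set_option autoImplicit false

namespace Pool.Agent.H99.EE

open MvPolynomial SC Pool.Agent.H27.LV Pool.Agent.H17.VG Pool.Agent.H30.EE

variable {K : Type} [Field K]

/-- complementary minors of a matrix and of its kernel -/
lemma compl_minors {ι : Type} [Fintype ι] [DecidableEq ι] {m r : ℕ} (u : Fin m → ι → K)
    (w : Fin r → ι → K) (t : Fin m → ι → K)
    (hut : ∀ a b, ∑ i, u a i * t b i = if a = b then 1 else 0)
    (huw : ∀ a b, ∑ i, u a i * w b i = 0) (e0 : Fin m ⊕ Fin r ≃ ι) :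
    ∃ l : K, ∀ e : Fin m ⊕ Fin r ≃ ι, mnr w (fun b => e (Sum.inr b)) =
      l * mnr u (fun b => e (Sum.inl b)) ∨ mnr w (fun b => e (Sum.inr b)) =
      -(l * mnr u (fun b => e (Sum.inl b))) := by
  let P : ι → Fin m ⊕ Fin r → K := fun i c => Sum.elim (fun a => t a i) (fun b => w b i) c
  let Pe : (Fin m ⊕ Fin r ≃ ι) → Matrix (Fin m ⊕ Fin r) (Fin m ⊕ Fin r) K := fun e =>
    Matrix.of fun x c => P (e x) c
  refine ⟨(Pe e0).det, fun e => ?_⟩
  let Q : Matrix (Fin m ⊕ Fin r) (Fin m ⊕ Fin r) K :=
    Matrix.fromBlocks (Matrix.of fun a b => u a (e (Sum.inl b)))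
      (Matrix.of fun a b => u a (e (Sum.inr b))) 0 1
  have hQ : Q.det = mnr u (fun b => e (Sum.inl b)) := by
    rw [Matrix.det_fromBlocks_zero₂₁, Matrix.det_one, mul_one]
    rfl
  have hsum : ∀ f : ι → K, ∑ i, f i = ∑ x : Fin m ⊕ Fin r, f (e x) := fun f =>
    (Equiv.sum_comp e f).symm
  have hQP : Q * Pe e = Matrix.fromBlocks 1 0 (Matrix.of fun a b => t b (e (Sum.inr a)))
      (Matrix.of fun a b => w b (e (Sum.inr a))) := by
    ext x c
    rw [Matrix.mul_apply]
    rcases x with a | a
    · have h1 : ∀ y, Q (Sum.inl a) y = u a (e y) := by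
        intro y
        rcases y with y | y <;> rfl
      simp_rw [h1]
      rcases c with c | c
      · have h2 := hut a c
        rw [hsum] at h2
        change ∑ y, u a (e y) * t c (e y) = (1 : Matrix (Fin m) (Fin m) K) a c
        rw [h2, Matrix.one_apply]
      · have h2 := huw a c
        rw [hsum] at h2
        change ∑ y, u a (e y) * w c (e y) = 0
        exact h2
    · have h1 : ∀ y, Q (Sum.inr a) y = if Sum.inr a = y then 1 else 0 := by
        intro y
        rcases y with y | y
        · simp [Q]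
        · simp [Q, Matrix.one_apply]
      simp_rw [h1]
      rw [Finset.sum_eq_single (Sum.inr a)]
      · rw [if_pos rfl, one_mul]
        rcases c with c | c <;> rfl
      · intro y _ hy
        rw [if_neg (Ne.symm hy), zero_mul]
      · intro h
        exact absurd (Finset.mem_univ _) h
  have hdet : (Q * Pe e).det = mnr w (fun b => e (Sum.inr b)) := by
    rw [hQP, Matrix.det_fromBlocks_zero₁₂, Matrix.det_one, one_mul, ← Matrix.det_transpose]
    rfl
  rw [Matrix.det_mul, hQ] at hdet
  have hperm : (Pe e).det = ((Equiv.Perm.sign (e.trans e0.symm) : ℤ) : K) * (Pe e0).det := by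
    have h3 : Pe e = (Pe e0).submatrix (e.trans e0.symm) id := by
      ext x c
      simp [Pe]
    rw [h3, Matrix.det_permute]
  rw [← hdet, hperm]
  rcases Int.units_eq_one_or (Equiv.Perm.sign (e.trans e0.symm)) with hs | hs
  · left
    rw [hs]
    push_cast
    ring
  · right
    rw [hs]
    push_cast
    ring

lemma mnr_inj {ι : Type} {m : ℕ} (u : Fin m → ι → K) {J : Fin m → ι} (h : mnr u J ≠ 0) :
    Function.Injective J := by
  intro a b hab
  by_contra hne
  apply h
  unfold mnr
  apply Matrix.det_zero_of_column_eq hne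
  intro c
  simp [hab]

lemma exists_ext {ι : Type} [Fintype ι] {m r : ℕ} (hN : m + r = Fintype.card ι)
    (J : Fin m → ι) (hJ : Function.Injective J) :
    ∃ e : Fin m ⊕ Fin r ≃ ι, ∀ b, e (Sum.inl b) = J b := by
  classical
  have h1 : Fintype.card {i // i ∉ Set.range J} = r := by
    rw [Fintype.card_subtype_compl]
    have h2 : Fintype.card {i // i ∈ Set.range J} = Fintype.card (Fin m) :=
      (Fintype.card_congr (Equiv.ofInjective J hJ)).symm
    rw [Fintype.card_fin] at h2
    omega
  let f : Fin r ≃ {i // i ∉ Set.range J} := (Fintype.equivFinOfCardEq h1).symm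
  let g : Fin m ≃ {i // i ∈ Set.range J} := Equiv.ofInjective J hJ
  refine ⟨(Equiv.sumCongr g f).trans (Equiv.sumCompl (fun i => i ∈ Set.range J)), fun b => ?_⟩
  simp [g]

theorem pf_DUA (hDGB : T_DGB) (hHG : T_HG) (hCBM : T_CBM) :
    Pool.Agent.H30.EE.T_DUA := by
  intro k K _ _ _ _ _ _ htr ι _ m u hu
  classical
  set U := LinearMap.ker (Matrix.mulVecLin (Matrix.of u)) with hU
  -- surjectivity
  have hrank : (Matrix.of u).rank = m := by
    have h1 : LinearIndependent K (Matrix.of u).row := hu
    rw [h1.rank_matrix, Fintype.card_fin]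
  have hrange : LinearMap.range (Matrix.mulVecLin (Matrix.of u)) = ⊤ := by
    apply Submodule.eq_top_of_finrank_eq
    rw [Module.finrank_fin_fun]
    exact hrank
  have hsurj : ∀ b : Fin m, ∃ t : ι → K, ∀ a, ∑ i, u a i * t i = if a = b then 1 else 0 := by
    intro b
    have h1 : (fun a => if a = b then (1 : K) else 0) ∈
        LinearMap.range (Matrix.mulVecLin (Matrix.of u)) := by
      rw [hrange]; trivial
    obtain ⟨t, ht⟩ := h1
    refine ⟨t, fun a => ?_⟩
    have h2 := congrFun ht a
    exact h2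
  choose t ht using hsurj
  have hdim := LinearMap.finrank_range_add_finrank_ker (Matrix.mulVecLin (Matrix.of u))
  rw [hrange, finrank_top, Module.finrank_fin_fun, Module.finrank_fintype_fun_eq_card] at hdim
  set r := Module.finrank K U with hr
  let w : Fin r → ι → K := fun b => ((Module.finBasis K U b : U) : ι → K)
  have hwi : LinearIndependent K w :=
    (Module.finBasis K U).linearIndependent.map' U.subtype U.ker_subtype
  have hws : Submodule.span K (Set.range w) = U := by
    have h1 := (Module.finBasis K U).span_eq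
    have h2 := congrArg (Submodule.map U.subtype) h1
    rw [Submodule.map_span, ← Set.range_comp, Submodule.map_subtype_top] at h2
    exact h2
  have huw : ∀ a b, ∑ i, u a i * w b i = 0 := by
    intro a b
    have h1 : w b ∈ U := (Module.finBasis K U b).2
    rw [hU, LinearMap.mem_ker] at h1
    exact congrFun h1 a
  have hd := hDGB k K htr ι r w hwi
  rw [hws] at hd
  rw [hd, neg_inj]
  have hmu : mnr u ≠ 0 := ((hCBM K m ι u).1).1 hu
  have hmw : mnr w ≠ 0 := ((hCBM K r ι w).1).1 hwi
  obtain ⟨J0, hJ0⟩ := Function.ne_iff.1 hmu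
  obtain ⟨e0, -⟩ := exists_ext hdim J0 (mnr_inj u hJ0)
  obtain ⟨l, hl⟩ := compl_minors u w t (fun a b => ht b a) huw e0
  have hl0 : l ≠ 0 := by
    rintro rfl
    obtain ⟨J, hJ⟩ := Function.ne_iff.1 hmw
    obtain ⟨e, he⟩ := exists_ext (by omega : r + m = Fintype.card ι) J (mnr_inj w hJ)
    have h1 := hl ((Equiv.sumComm (Fin m) (Fin r)).trans e)
    have h2 : (fun b => ((Equiv.sumComm (Fin m) (Fin r)).trans e) (Sum.inr b)) = J := by
      funext b
      exact he b
    rw [h2, zero_mul, neg_zero, or_self] at h1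
    exact hJ h1
  rw [← (hHG k K htr (Fin m → ι) (mnr u)).2.2.1 l hl0]
  unfold hgt
  congr 1
  apply finsum_congr
  intro v
  unfold mo
  congr 1
  ext a
  constructor
  · rintro ⟨J, hJ, ha⟩
    obtain ⟨e, he⟩ := exists_ext (by omega : r + m = Fintype.card ι) J (mnr_inj w hJ)
    have h1 := hl ((Equiv.sumComm (Fin m) (Fin r)).trans e)
    have h2 : (fun b => ((Equiv.sumComm (Fin m) (Fin r)).trans e) (Sum.inr b)) = J := by
      funext b
      exact he b
    rw [h2] at h1
    refine ⟨fun b => ((Equiv.sumComm (Fin m) (Fin r)).trans e) (Sum.inl b), ?_, ?_⟩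
    · rw [Pi.smul_apply, smul_eq_mul]
      intro h0
      rw [h0, neg_zero, or_self] at h1
      exact hJ h1
    · rw [Pi.smul_apply, smul_eq_mul]
      rcases h1 with h1 | h1
      · rw [← h1]; exact ha
      · rw [← ha, h1, v.ord_neg]
  · rintro ⟨J, hJ, ha⟩
    rw [Pi.smul_apply, smul_eq_mul] at hJ ha
    obtain ⟨e, he⟩ := exists_ext hdim J (mnr_inj u (right_ne_zero_of_mul hJ))
    have h1 := hl e
    have h2 : (fun b => e (Sum.inl b)) = J := funext he
    rw [h2] at h1
    refine ⟨fun b => e (Sum.inr b), ?_, ?_⟩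
    · rcases h1 with h1 | h1
      · rw [h1]; exact hJ
      · rw [h1]; exact neg_ne_zero.2 hJ
    · rcases h1 with h1 | h1
      · rw [h1]; exact ha
      · rw [h1, v.ord_neg]; exact ha

end Pool.Agent.H99.EE
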