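import Pool.Agent.H30.EE.TargetsU

/-!
# MP_70ba79_ag: module L42 of the board `ee_modules`
-/

set_option autoImplicit false

namespace Pool.Agent.H99.EE

open MvPolynomial SC Pool.Agent.H27.LV Pool.Agent.H17.VG Pool.Agent.H17.BO Pool.Agent.H30.EE

/-- normalisation of a form of small height -/
lemma l42_norm (hHTA : T_HTA) (hHG : T_HG) {k K : Type} [Field k] [IsAlgClosed k]
    [CharZero k] [Field K] [Algebra k K] [Algebra.EssFiniteType k K] (htr : Algebra.trdeg k K = 1)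
    {b β : ℕ} {g : MvPolynomial (Fin 3) K} (hg0 : g ≠ 0) (hgh : g.IsHomogeneous b)
    (hh : hF (n := 2) k b g ≤ β) : ∃ G : MvPolynomial (Fin 3) K, G.IsHomogeneous b ∧
      (∃ c, G = C c * g) ∧ (∀ M : Fin 3 → ℕ, h1 k (coeff (fs M) G) ≤ β) ∧
      ∃ M : Mon 3 b, coeff (fs M.1) G = 1 := by
  obtain ⟨M0, hM0⟩ : ∃ M : Mon 3 b, coeff (fs M.1) g ≠ 0 := by
    by_contra hall
    push Not at hall
    apply hg0
    rw [← frm_coeff (n := 2) hgh]
    have h1 : (fun f : Mon 3 b => coeff (fs f.1) g) = fun _ => 0 := funext hall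
    rw [h1]
    unfold frm
    simp
  obtain ⟨s, hs⟩ : ∃ s, s = coeff (fs M0.1) g := ⟨_, rfl⟩
  rw [← hs] at hM0
  refine ⟨C s⁻¹ * g, ?_, ⟨s⁻¹, rfl⟩, ?_, ⟨M0, ?_⟩⟩
  · have := (isHomogeneous_C (Fin 3) s⁻¹).mul hgh
    rwa [zero_add] at this
  · intro M
    rw [coeff_C_mul]
    by_cases hM : ∑ i, M i = b
    · have h1 := (hHG k K htr (Mon 3 b) (fun M : Mon 3 b => coeff (fs M.1) g)).2.2.2.2.1 M0
        (by rw [← hs]; exact hM0)
      have h2 := ((hHTA k K htr 0 0).2.2.2.2 (Mon 3 b)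
        (fun M : Mon 3 b => coeff (fs M.1) g / coeff (fs M0.1) g)).1 ⟨M, hM⟩
      have h3 : (Pool.Agent.H17.VG.h1 k (coeff (fs M) g / coeff (fs M0.1) g) : ℤ) ≤ β := by
        refine le_trans ?_ hh
        unfold hF
        rw [h1]
        exact_mod_cast h2
      rw [← hs, div_eq_inv_mul] at h3
      exact_mod_cast h3
    · have h1 : coeff (fs M) g = 0 := by
        apply hgh.coeff_eq_zero
        rw [degree_fs]
        exact hM
      rw [h1, mul_zero]
      have h2 := (hHTA k K htr 0 0).2.2.2.1 0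
      rw [map_zero] at h2
      rw [h2]
      exact Nat.zero_le _
  · rw [coeff_C_mul, ← hs, inv_mul_cancel₀ hM0]

lemma l42_frL_inj {K : Type} [Field K] (n d : ℕ) : Function.Injective (frL K n d) := by
  rw [← LinearMap.ker_eq_bot, LinearMap.ker_eq_bot']
  intro t ht
  exact frm_zero ht

lemma l42_range {K : Type} [Field K] (n d : ℕ) : LinearMap.range (frL K n d) = Sd K n d := by
  ext G
  constructor
  · rintro ⟨t, rfl⟩
    exact frm_homog t
  · intro hG
    exact ⟨_, frm_coeff hG⟩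

/-- the height of the curve is bounded by the heights of the quadrics -/
lemma l42_Da (hDG0 : T_DG0) (hDAI : T_DAI) (hQDM : T_QDM) {k K : Type} [Field k] [IsAlgClosed k]
    [CharZero k] [Field K] [Algebra k K] [Algebra.EssFiniteType k K] (htr : Algebra.trdeg k K = 1)
    {m M : ℕ} (z : Fin (m + 1) → Fin (m + 1) → K) (hz : LinearIndependent K z)
    (q : Fin M → Mon (m + 1) 2 → K) (hq : LinearIndependent K q)
    (hM : M + (2 * m + 1) = Fintype.card (Mon (m + 1) 2))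
    (hres : ∀ l, resC z (frm (q l)) = 0) (N : ℤ) (hN : ∀ l, hgt k (q l) ≤ N) :
    Da k 2 z ≤ M * N := by
  have h1 := (hDAI k K htr m m 2 z hz).1
  have h2 := (hDG0 k K htr (Mon (m + 1) 2)).2.2.2.1 M q hq
  have h3 : Submodule.span K (Set.range q) = (Iz 2 z).comap (frL K m 2) := by
    apply Submodule.eq_of_le_of_finrank_eq
    · rw [Submodule.span_le]
      rintro _ ⟨l, rfl⟩
      exact ⟨frm_homog (q l), hres l⟩
    · rw [finrank_span_eq_card hq, Fintype.card_fin]
      have h4 := (hQDM K m m 2 z hz).2.2.1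
      have h5 : Module.finrank K (Sd K m 2) = Fintype.card (Mon (m + 1) 2) := by
        rw [← l42_range, LinearMap.finrank_range_of_inj (l42_frL_inj m 2),
          Module.finrank_fintype_fun_eq_card]
      have h6 : Submodule.map (frL K m 2) ((Iz 2 z).comap (frL K m 2)) = Iz 2 z := by
        rw [Submodule.map_comap_eq, l42_range]
        exact inf_eq_right.2 inf_le_left
      have h7 := (Submodule.equivMapOfInjective (frL K m 2) (l42_frL_inj m 2)
        ((Iz 2 z).comap (frL K m 2))).finrank_eq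
      rw [h7, h6]
      omega
  unfold dS at h1
  rw [← h3] at h1
  have h8 : ∑ a, hgt k (q a) ≤ M * N := by
    refine (Finset.sum_le_sum fun l _ => hN l).trans ?_
    rw [Finset.sum_const, Finset.card_univ, Fintype.card_fin, nsmul_eq_mul]
  linarith

/-- a counterexample with the constant `C` -/
structure CEL (B m C : ℕ) where
  k : Type
  K : Type
  [ik : Field k]
  [iac : IsAlgClosed k]
  [icz : CharZero k]
  [iK : Field K]
  [ia : Algebra k K]
  [iess : Algebra.EssFiniteType k K]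
  htr : Algebra.trdeg k K = 1
  β : ℕ
  y : Fin (m + 1) → K
  hy0 : y 0 ≠ 0
  hg : ∀ c : Fin (m + 1) → ℤ, ∃ (b : ℕ) (g : MvPolynomial (Fin 3) K), b ≤ B ∧ g ≠ 0 ∧
    g.IsHomogeneous b ∧ hF (n := 2) k b g ≤ β ∧ eval ![y 0, y 1, ∑ i, (c i : K) * y i] g = 0
  hnot : ¬ (hgt k ![y 0, y 1] ≤ C * β ∨
    (∃ a : Fin (m + 1) → K, a ≠ 0 ∧ ∑ i, a i * y i = 0 ∧ hgt k a ≤ C * β) ∨
    (m = B ∧ ∃ z : Fin (m + 1) → Fin (m + 1) → K, LinearIndependent K z ∧ z 0 = y ∧
      Da k 2 z ≤ C * β))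

attribute [instance] CEL.ik CEL.iac CEL.icz CEL.iK CEL.ia CEL.iess

theorem l42_fixed (hHTA : T_HTA) (hULT : T_ULT) (hHG : T_HG) (hDG0 : T_DG0) (hDAI : T_DAI)
    (hQDM : T_QDM) (hL41 : T_L41) (hTRR : T_TRR) (hTRQ : T_TRQ) (B m : ℕ) (hB : 1 ≤ B)
    (hBm : B ≤ m) : ∃ C : ℕ, ∀ (k K : Type) [Field k] [IsAlgClosed k]
    [CharZero k] [Field K] [Algebra k K] [Algebra.EssFiniteType k K], Algebra.trdeg k K = 1 →
    ∀ (β : ℕ) (y : Fin (m + 1) → K), y 0 ≠ 0 →
    (∀ c : Fin (m + 1) → ℤ, ∃ (b : ℕ) (g : MvPolynomial (Fin 3) K), b ≤ B ∧ g ≠ 0 ∧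
      g.IsHomogeneous b ∧ hF (n := 2) k b g ≤ β ∧
      eval ![y 0, y 1, ∑ i, (c i : K) * y i] g = 0) →
    hgt k ![y 0, y 1] ≤ C * β ∨
    (∃ a : Fin (m + 1) → K, a ≠ 0 ∧ ∑ i, a i * y i = 0 ∧ hgt k a ≤ C * β) ∨
    (m = B ∧ ∃ z : Fin (m + 1) → Fin (m + 1) → K, LinearIndependent K z ∧ z 0 = y ∧
      Da k 2 z ≤ C * β) := by
  classical
  by_contra hcon
  have hne : ∀ C, Nonempty (CEL B m C) := by
    intro C
    by_contra hemp
    apply hcon
    refine ⟨C, ?_⟩
    intro k K _ _ _ _ _ _ htr β y hy0 hg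
    by_contra hnot
    refine hemp ⟨?_⟩
    exact
      { k := k, K := K, htr := htr, β := β, y := y, hy0 := hy0, hg := hg,
        hnot := hnot }
  obtain ⟨X⟩ : Nonempty (∀ C, CEL B m C) := ⟨fun C => (hne C).some⟩
  obtain ⟨L, iL, iLz, k', ik', ik'z, ia', π, hsurj, hker, hrange, hac⟩ :=
    hULT (fun i => (X i).k) (fun i => (X i).K) (fun i => (X i).htr) (fun i => (X i).β)
  have hge : ∀ N : ℕ, ∀ᶠ i in (Filter.hyperfilter ℕ : Filter ℕ), N ≤ i := fun N =>
    (Filter.eventually_ge_atTop N).filter_mono Nat.hyperfilter_le_atTop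
  obtain ⟨y, hy⟩ : ∃ y : Fin (m + 1) → L, ∀ j, y j = π fun i => (X i).y j := ⟨_, fun _ => rfl⟩
  have hy' : y = fun j => π fun i => (X i).y j := funext hy
  have hy0 : y 0 ≠ 0 := by
    intro h
    rw [hy] at h
    obtain ⟨i, hi⟩ := ((hker _).1 h).exists
    exact (X i).hy0 hi
  have hy1 : y 1 / y 0 ∉ Set.range (algebraMap k' L) := by
    intro h
    have h2 : y 1 / y 0 = π fun i => (X i).y 1 / (X i).y 0 := by
      rw [div_eq_iff hy0, hy, hy, ← map_mul]
      congr 1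
      funext i
      rw [Pi.mul_apply, div_mul_cancel₀ _ (X i).hy0]
    rw [h2, hrange] at h
    obtain ⟨N, hN⟩ := h
    obtain ⟨i, hi, hi2⟩ := (hN.and (hge N)).exists
    apply (X i).hnot
    left
    have h3 := (hHG (X i).k (X i).K (X i).htr (Fin 2) ![(X i).y 0, (X i).y 1]).2.2.2.2.1 0
      (X i).hy0
    have h4 := ((hHTA (X i).k (X i).K (X i).htr 0 0).2.2.2.2 (Fin 2)
      (fun j => (![(X i).y 0, (X i).y 1] : Fin 2 → (X i).K) j /
        (![(X i).y 0, (X i).y 1] : Fin 2 → (X i).K) 0)).2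
    have h5 := (hHTA (X i).k (X i).K (X i).htr 0 0).2.2.2.1 1
    rw [map_one] at h5
    rw [Fin.sum_univ_two] at h4
    simp only [Matrix.cons_val_zero, Matrix.cons_val_one] at h4
    rw [div_self (X i).hy0, h5, zero_add] at h4
    rw [h3]
    have h6 : h1 (X i).k ((X i).y 1 / (X i).y 0) ≤ i * (X i).β :=
      hi.trans (Nat.mul_le_mul_right _ hi2)
    exact_mod_cast h4.trans h6
  have hrel : ∀ c : Fin (m + 1) → ℤ, ∃ (b : ℕ) (g : MvPolynomial (Fin 3) k'), b ≤ B ∧ g ≠ 0 ∧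
      g.IsHomogeneous b ∧ aeval ![y 0, y 1, ∑ i, (c i : L) * y i] g = 0 := by
    intro c
    have h1 : ∀ i, ∃ (b : ℕ) (G : MvPolynomial (Fin 3) (X i).K), b ≤ B ∧ G.IsHomogeneous b ∧
        (∀ M : Fin 3 → ℕ, h1 (X i).k (coeff (fs M) G) ≤ (X i).β) ∧
        (∃ M : Mon 3 b, coeff (fs M.1) G = 1) ∧
        eval ![(X i).y 0, (X i).y 1, ∑ j, (c j : (X i).K) * (X i).y j] G = 0 := by
      intro i
      obtain ⟨b, g, hb, hg0, hgh, hgF, hge0⟩ := (X i).hg c
      obtain ⟨G, hG1, ⟨s, hG2⟩, hG3, hG4⟩ := l42_norm hHTA hHG (X i).htr hg0 hgh hgF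
      refine ⟨b, G, hb, hG1, hG3, hG4, ?_⟩
      rw [hG2, map_mul, hge0, mul_zero]
    choose b G hbB hGh hGβ hG1 hG0 using h1
    obtain ⟨b0, hb0B, hb0⟩ : ∃ b0 ≤ B, ∀ᶠ i in (Filter.hyperfilter ℕ : Filter ℕ), b i = b0 := by
      by_contra hno
      push Not at hno
      have h2 : ∀ᶠ i in (Filter.hyperfilter ℕ : Filter ℕ), ∀ b0 ∈ Finset.range (B + 1),
          b i ≠ b0 := by
        rw [Filter.eventually_all_finset]
        intro b0 hb0
        exact hno b0 (by rw [Finset.mem_range] at hb0; omega)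
      obtain ⟨i, hi⟩ := h2.exists
      exact hi (b i) (Finset.mem_range.2 (by have := hbB i; omega)) rfl
    have hr0 : ∀ M : Mon 3 b0, ∃ r : k', algebraMap k' L r =
        π fun i => coeff (fs M.1) (G i) := by
      intro M
      exact (hrange (fun i => coeff (fs M.1) (G i))).2
        ⟨1, Filter.Eventually.of_forall fun i => by rw [one_mul]; exact hGβ i M.1⟩
    choose r hr using hr0
    refine ⟨b0, frm (n := 2) r, hb0B, ?_, frm_homog (n := 2) r, ?_⟩
    · intro h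
      have h2 := frm_zero (n := 2) h
      have h3 : ∀ M : Mon 3 b0, ∀ᶠ i in (Filter.hyperfilter ℕ : Filter ℕ),
          coeff (fs M.1) (G i) = 0 := by
        intro M
        apply (hker _).1
        rw [← hr, h2]
        exact map_zero _
      obtain ⟨i, hi, hi2⟩ := ((Filter.eventually_all.2 h3).and hb0).exists
      obtain ⟨M, hM⟩ := hG1 i
      have h4 := hi ⟨M.1, by rw [← hi2]; exact M.2⟩
      exact one_ne_zero (hM.symm.trans h4)
    · obtain ⟨p, hp⟩ : ∃ p : ∀ i, Fin 3 → (X i).K, p = fun i =>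
        ![(X i).y 0, (X i).y 1, ∑ j, (c j : (X i).K) * (X i).y j] := ⟨_, rfl⟩
      have hpL : (![y 0, y 1, ∑ i, (c i : L) * y i] : Fin 3 → L) = fun j => π fun i => p i j := by
        funext j
        fin_cases j
        · simp only [hp]
          exact hy 0
        · simp only [hp]
          exact hy 1
        · simp only [hp]
          show ∑ i, (c i : L) * y i = π fun i => ∑ j, (c j : (X i).K) * (X i).y j
          have h2 : (fun i => ∑ j, (c j : (X i).K) * (X i).y j : ∀ i, (X i).K) =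
              ∑ j, (c j : ∀ i, (X i).K) * (fun i => (X i).y j) := by
            funext i
            rw [Finset.sum_apply]
            rfl
          rw [h2, map_sum]
          refine Finset.sum_congr rfl fun j _ => ?_
          rw [map_mul, map_intCast, hy]
      rw [hpL, aeval_def, eval₂_eq_eval_map]
      have hmap : MvPolynomial.map (algebraMap k' L) (frm (n := 2) r) =
          frm (n := 2) fun M : Mon 3 b0 => π fun i => coeff (fs M.1) (G i) := by
        unfold frm mono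
        rw [map_sum]
        refine Finset.sum_congr rfl fun M _ => ?_
        rw [map_mul, map_C, map_monomial, map_one, hr]
      rw [hmap, eval_frm (n := 2)]
      have h3 : ∀ M : Mon 3 b0, mv (n := 2) b0 (fun j => π fun i => p i j) M =
          π fun i => mv (n := 2) b0 (p i) M := by
        intro M
        unfold mv
        have h4 : (fun i => ∏ j, p i j ^ M.1 j : ∀ i, (X i).K) =
            ∏ j, (fun i => p i j : ∀ i, (X i).K) ^ M.1 j := by
          funext i
          rw [Finset.prod_apply]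
          rfl
        rw [h4, map_prod]
        refine Finset.prod_congr rfl fun j _ => ?_
        rw [map_pow]
      simp only [h3, ← map_mul, ← map_sum]
      rw [hker]
      filter_upwards [hb0] with i hi
      rw [Finset.sum_apply]
      simp only [Pi.mul_apply]
      have h5 : ∑ M : Mon 3 b0, coeff (fs M.1) (G i) * mv (n := 2) b0 (p i) M =
          eval (p i) (frm (n := 2) fun M : Mon 3 b0 => coeff (fs M.1) (G i)) := by
        rw [eval_frm (n := 2)]
      rw [h5, frm_coeff (n := 2) (by rw [← hi]; exact hGh i), hp]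
      exact hG0 i
  rcases hL41 k' L hac m B y hB hBm hy0 hy1 hrel with h | ⟨hmB, M, q, z, hM, hq, hz, hz0, hres⟩
  · rw [hy'] at h
    obtain ⟨N, hN⟩ := hTRR (fun i => (X i).k) (fun i => (X i).K) (fun i => (X i).htr)
      (fun i => (X i).β) L k' π hsurj hker hrange m (fun i => (X i).y) h
    obtain ⟨i, ⟨a, ha0, ha1, ha2⟩, hi2⟩ := (hN.and (hge N)).exists
    apply (X i).hnot
    refine Or.inr (Or.inl ⟨a, ha0, ha1, ha2.trans ?_⟩)
    exact_mod_cast Nat.mul_le_mul_right (X i).β hi2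
  · obtain ⟨N, hN⟩ := hTRQ (fun i => (X i).k) (fun i => (X i).K) (fun i => (X i).htr)
      (fun i => (X i).β) L k' π hsurj hker hrange m (fun i => (X i).y) M q z hM hq hz
      (by rw [hz0, hy']) hres
    obtain ⟨i, ⟨q', z', hq', hz', hz0', hres', hht⟩, hi2⟩ := (hN.and (hge (M * N))).exists
    apply (X i).hnot
    refine Or.inr (Or.inr ⟨hmB, z', hz', hz0', ?_⟩)
    have h1 := l42_Da hDG0 hDAI hQDM (X i).htr z' hz' q' hq' hM hres' _ hht
    refine h1.trans ?_
    rw [← mul_assoc]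
    exact_mod_cast Nat.mul_le_mul_right (X i).β hi2

theorem pf_L42 (hHTA : Pool.Agent.H17.BO.T_HTA) (hULT : Pool.Agent.H17.BO.T_ULT) (hHG : T_HG)
    (hDG0 : T_DG0) (_hDSP : T_DSP) (hDAI : T_DAI) (hQDM : T_QDM) (hL41 : T_L41) (hTRR : T_TRR)
    (hTRQ : T_TRQ) : T_L42 := by
  intro B hB
  obtain ⟨C1, h1⟩ := l42_fixed hHTA hULT hHG hDG0 hDAI hQDM hL41 hTRR hTRQ B B hB le_rfl
  obtain ⟨C2, h2⟩ := l42_fixed hHTA hULT hHG hDG0 hDAI hQDM hL41 hTRR hTRQ B (B + 1) hB
    (Nat.le_succ B)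
  refine ⟨C1 + C2, ?_⟩
  intro k K _ _ _ _ _ _ htr m β y hBm hmB hy0 hg
  have e1 : (C1 * β : ℤ) ≤ ((C1 + C2 : ℕ) : ℤ) * β := by
    exact_mod_cast Nat.mul_le_mul_right β (Nat.le_add_right C1 C2)
  have e2 : (C2 * β : ℤ) ≤ ((C1 + C2 : ℕ) : ℤ) * β := by
    exact_mod_cast Nat.mul_le_mul_right β (Nat.le_add_left C2 C1)
  have h3 : m = B ∨ m = B + 1 := by omega
  rcases h3 with rfl | rfl
  · rcases h1 k K htr β y hy0 hg with h | ⟨a, ha0, ha1, ha2⟩ | ⟨hm, z, hz, hz0, hz2⟩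
    · exact Or.inl (h.trans e1)
    · exact Or.inr (Or.inl ⟨a, ha0, ha1, ha2.trans e1⟩)
    · exact Or.inr (Or.inr ⟨hm, z, hz, hz0, hz2.trans e1⟩)
  · rcases h2 k K htr β y hy0 hg with h | ⟨a, ha0, ha1, ha2⟩ | ⟨hm, z, hz, hz0, hz2⟩
    · exact Or.inl (h.trans e2)
    · exact Or.inr (Or.inl ⟨a, ha0, ha1, ha2.trans e2⟩)
    · exact Or.inr (Or.inr ⟨hm, z, hz, hz0, hz2.trans e2⟩)

end Pool.Agent.H99.EE
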