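import Pool.Agent.H30.EE.TargetsP

set_option autoImplicit false

namespace Pool.Agent.H99.EE

open MvPolynomial SC Pool.Agent.H27.LV Pool.Agent.H17.VG Pool.Agent.H30.EE

theorem pf_PRI : T_PRI := by
  intro K _ _ n a W hW hW0
  classical
  by_contra hcon
  push Not at hcon
  obtain ⟨h1, h2⟩ := hcon
  obtain ⟨G, hGW, hG0⟩ := Submodule.exists_mem_ne_zero_of_ne_bot hW0
  -- the proper subspaces
  let V : MvPolynomial (Fin (n + 1)) K → Submodule K W := fun p =>
    { carrier := {w | p ∣ (w : MvPolynomial (Fin (n + 1)) K)}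
      add_mem' := fun {x y} hx hy => by
        have hx' : p ∣ (x : MvPolynomial (Fin (n + 1)) K) := hx
        have hy' : p ∣ (y : MvPolynomial (Fin (n + 1)) K) := hy
        exact dvd_add hx' hy'
      zero_mem' := dvd_zero p
      smul_mem' := fun c x hx => by
        have hx' : p ∣ (x : MvPolynomial (Fin (n + 1)) K) := hx
        change p ∣ c • (x : MvPolynomial (Fin (n + 1)) K)
        rw [smul_eq_C_mul]
        exact dvd_mul_of_dvd_right hx' _ }
  let S : Finset (Submodule K W) := (UniqueFactorizationMonoid.factors G).toFinset.image V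
  have hS : ⊤ ∉ S := by
    intro h
    obtain ⟨p, hp, hpV⟩ := Finset.mem_image.1 h
    rw [Multiset.mem_toFinset] at hp
    have hirr := UniqueFactorizationMonoid.irreducible_of_factor p hp
    obtain ⟨G', hG', hnd⟩ := h1 p hirr
    apply hnd
    have : (⟨G', hG'⟩ : W) ∈ V p := by rw [hpV]; trivial
    exact this
  have hU := Subspace.biUnion_ne_univ_of_top_notMem hS
  rw [Set.ne_univ_iff_exists_notMem] at hU
  obtain ⟨w, hw⟩ := hU
  have hw' : ∀ p ∈ UniqueFactorizationMonoid.factors G,
      ¬ p ∣ (w : MvPolynomial (Fin (n + 1)) K) := by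
    intro p hp hd
    apply hw
    rw [Set.mem_iUnion₂]
    exact ⟨V p, Finset.mem_image_of_mem _ (Multiset.mem_toFinset.2 hp), hd⟩
  have key : ∀ G' : MvPolynomial (Fin (n + 1)) K,
      (∀ p ∈ UniqueFactorizationMonoid.factors G, ¬ p ∣ G') → IsRelPrime G G' := by
    intro G' hG' d hd hd'
    by_contra hu
    have hd0 : d ≠ 0 := by
      rintro rfl
      exact hG0 (zero_dvd_iff.1 hd)
    obtain ⟨p, hp, hpd⟩ := WfDvdMonoid.exists_irreducible_factor hu hd0
    obtain ⟨q, hq, hpq⟩ := UniqueFactorizationMonoid.exists_mem_factors_of_dvd hG0 hp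
      (hpd.trans hd)
    exact hG' q hq ((hpq.symm.dvd).trans (hpd.trans hd'))
  by_cases hf : UniqueFactorizationMonoid.factors G = 0
  · exact h2 G hGW G hGW hG0 hG0 (key G (by rw [hf]; simp))
  · obtain ⟨p, hp⟩ := Multiset.exists_mem_of_ne_zero hf
    refine h2 G hGW w w.2 hG0 ?_ (key _ hw')
    intro h0
    apply hw' p hp
    rw [h0]
    exact dvd_zero _

end Pool.Agent.H99.EE
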