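import Pool.Agent.H30.EE.TargetsU

/-!
# MP_70ba79_ag: module UQS of the board `ee_modules`
-/

set_option autoImplicit false

namespace Pool.Agent.H99.EE

open MvPolynomial SC Pool.Agent.H27.LV Pool.Agent.H17.VG Pool.Agent.H17.BO Pool.Agent.H30.EE

/-- restriction commutes with ring maps -/
lemma resC_map {K K' : Type} [Field K] [Field K'] (φ : K →+* K') {r n : ℕ}
    (z : Fin (r + 1) → Fin (n + 1) → K) (G : MvPolynomial (Fin (n + 1)) K) :
    resC (fun i j => φ (z i j)) (MvPolynomial.map φ G) = (resC z G).map φ := by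
  unfold resC
  induction G using MvPolynomial.induction_on with
  | C a => simp [Polynomial.algebraMap_eq]
  | add p q hp hq => simp only [map_add, Polynomial.map_add, hp, hq]
  | mul_X p i hp =>
    simp only [map_mul, Polynomial.map_mul, hp, MvPolynomial.map_X, MvPolynomial.aeval_X,
      Polynomial.map_sum, Polynomial.map_pow, Polynomial.map_C, Polynomial.map_X]

/-- value of the restriction -/
lemma eval_resC {K : Type} [Field K] {r n : ℕ}
    (z : Fin (r + 1) → Fin (n + 1) → K) (G : MvPolynomial (Fin (n + 1)) K) (s : K) :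
    (resC z G).eval s = eval (fun j => ∑ i, z i j * s ^ (i : ℕ)) G := by
  unfold resC
  induction G using MvPolynomial.induction_on with
  | C a => simp [Polynomial.algebraMap_eq]
  | add p q hp hq => simp only [map_add, Polynomial.eval_add, hp, hq]
  | mul_X p i hp =>
    simp only [map_mul, Polynomial.eval_mul, hp, MvPolynomial.eval_X, MvPolynomial.aeval_X,
      Polynomial.eval_finsetSum, Polynomial.eval_pow, Polynomial.eval_C, Polynomial.eval_X]

lemma map_frm {K K' : Type} [Field K] [Field K'] (φ : K →+* K') {n e : ℕ}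
    (t : Mon (n + 1) e → K) :
    MvPolynomial.map φ (frm t) = frm (fun a => φ (t a)) := by
  unfold frm mono
  rw [map_sum]
  refine Finset.sum_congr rfl fun a _ => ?_
  rw [map_mul, map_C, map_monomial, map_one]

lemma mv_smul {K : Type} [Field K] {n e : ℕ} (f : K) (w : Fin (n + 1) → K)
    (a : Mon (n + 1) e) : mv e (fun j => f * w j) a = f ^ e * mv e w a := by
  unfold mv
  simp only [mul_pow, Finset.prod_mul_distrib]
  rw [Finset.prod_pow_eq_pow_sum, a.2]

lemma mv_map {K K' : Type} [Field K] [Field K'] (φ : K →+* K') {n e : ℕ}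
    (w : Fin (n + 1) → K) (a : Mon (n + 1) e) : mv e (fun j => φ (w j)) a = φ (mv e w a) := by
  unfold mv
  rw [map_prod]
  refine Finset.prod_congr rfl fun j _ => ?_
  rw [map_pow]

/-- degree of the restriction of a monomial -/
lemma natDegree_resC_mono {K : Type} [Field K] {r n e : ℕ}
    (z : Fin (r + 1) → Fin (n + 1) → K) (a : Mon (n + 1) e) :
    (resC z (mono K a.1)).natDegree ≤ r * e := by
  have h1 : resC z (mono K a.1) =
      ∏ j, (∑ i : Fin (r + 1), Polynomial.C (z i j) * Polynomial.X ^ (i : ℕ)) ^ a.1 j := by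
    unfold resC mono
    rw [aeval_monomial, map_one, one_mul]
    rw [Finsupp.prod_fintype _ _ (fun i => pow_zero _)]
    rfl
  rw [h1]
  refine (Polynomial.natDegree_prod_le _ _).trans ?_
  have h2 : ∀ j : Fin (n + 1), ((∑ i : Fin (r + 1), Polynomial.C (z i j) *
      Polynomial.X ^ (i : ℕ)) ^ a.1 j).natDegree ≤ a.1 j * r := by
    intro j
    refine Polynomial.natDegree_pow_le.trans ?_
    refine Nat.mul_le_mul_left _ ?_
    refine Polynomial.natDegree_sum_le_of_forall_le _ _ fun i _ => ?_
    refine (Polynomial.natDegree_C_mul_X_pow_le _ _).trans ?_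
    have := i.2
    omega
  refine (Finset.sum_le_sum fun j _ => h2 j).trans ?_
  rw [← Finset.sum_mul, a.2, mul_comm]

/-- extension of scalars of a span -/
lemma span_ext {k0 L Ω : Type} [Field k0] [Field L] [Field Ω] [Algebra k0 L] [Algebra L Ω]
    [Algebra k0 Ω] [IsScalarTower k0 L Ω] (kb : IntermediateField k0 Ω) {ι : Type} (u : ι → L)
    (v : L) (hv : v ∈ Submodule.span k0 (Set.range u)) :
    algebraMap L Ω v ∈ Submodule.span kb (Set.range fun i => algebraMap L Ω (u i)) := by
  induction hv using Submodule.span_induction with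
  | mem x hx =>
    obtain ⟨i, rfl⟩ := hx
    exact Submodule.subset_span ⟨i, rfl⟩
  | zero => rw [map_zero]; exact Submodule.zero_mem _
  | add x y _ _ hx hy => rw [map_add]; exact Submodule.add_mem _ hx hy
  | smul c x _ hx =>
    have h1 : algebraMap L Ω (c • x) = algebraMap k0 kb c • algebraMap L Ω x := by
      rw [Algebra.smul_def, map_mul, Algebra.smul_def]
      rw [← IsScalarTower.algebraMap_apply k0 L Ω]
      rfl
    rw [h1]
    exact Submodule.smul_mem _ _ hx

/-- the exponent of `X_i X_j` -/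
noncomputable def ee2 {m : ℕ} (i j : Fin (m + 1)) : Mon (m + 1) 2 :=
  ⟨fun l => (if l = i then 1 else 0) + (if l = j then 1 else 0), by
    rw [Finset.sum_add_distrib, Finset.sum_ite_eq' Finset.univ i, Finset.sum_ite_eq' Finset.univ j]
    simp⟩

lemma mv_ee2 {K : Type} [Field K] {m : ℕ} (w : Fin (m + 1) → K) (i j : Fin (m + 1)) :
    mv 2 w (ee2 i j) = w i * w j := by
  unfold mv ee2
  simp only [pow_add, Finset.prod_mul_distrib]
  rw [Finset.prod_eq_single i (by intro b _ hb; rw [if_neg hb, pow_zero]) (by simp),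
    Finset.prod_eq_single j (by intro b _ hb; rw [if_neg hb, pow_zero]) (by simp)]
  simp

theorem pf_UQS (hLDJ : Pool.Agent.H17.BO.T_LDJ) : T_UQS := by
  intro k0 L Ω _ _ _ _ _ _ _ _ hcl m y z s f hz hs hf hind hy
  classical
  obtain ⟨kb, hkb⟩ : ∃ kb : IntermediateField k0 Ω, kb = algebraicClosure k0 Ω := ⟨_, rfl⟩
  have hmem : ∀ x : Ω, x ∈ kb ↔ IsAlgebraic k0 x := by
    intro x
    rw [hkb, mem_algebraicClosure_iff]
  have hkbalg : Algebra.IsAlgebraic k0 kb := by
    rw [hkb]; infer_instance
  -- the transcendence of `s`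
  have hst : ∀ Q : Polynomial kb, Polynomial.aeval s Q = 0 → Q = 0 := by
    intro Q hQ
    by_contra hQ0
    exact hs (IsAlgebraic.restrictScalars k0 (⟨Q, hQ0, hQ⟩ : IsAlgebraic kb s))
  obtain ⟨z', hz'⟩ : ∃ z' : Fin (m + 1) → Fin (m + 1) → kb, ∀ i j, (z' i j : Ω) = z i j :=
    ⟨fun i j => ⟨z i j, (hmem _).2 (hz i j)⟩, fun _ _ => rfl⟩
  obtain ⟨w, hw⟩ : ∃ w : Fin (m + 1) → Ω, ∀ j, w j = ∑ i, z i j * s ^ (i : ℕ) := ⟨_, fun _ => rfl⟩
  obtain ⟨yy, hyy⟩ : ∃ yy : Fin (m + 1) → Ω, yy = fun j => algebraMap L Ω (y j) := ⟨_, rfl⟩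
  have hyw : yy = fun j => f * w j := by
    rw [hyy]; funext j; rw [hy j, hw j]
  -- polynomials in `s`
  have hresC : ∀ G : MvPolynomial (Fin (m + 1)) kb,
      Polynomial.aeval s (resC z' G) = eval w (MvPolynomial.map (algebraMap kb Ω) G) := by
    intro G
    have h1 := resC_map (algebraMap kb Ω) z' G
    have h2 : (fun i j => algebraMap kb Ω (z' i j)) = z := by
      funext i j; exact hz' i j
    rw [h2] at h1
    have h3 := eval_resC z (MvPolynomial.map (algebraMap kb Ω) G) s
    rw [h1, Polynomial.eval_map] at h3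
    rw [Polynomial.aeval_def, h3]
    have h4 : (fun j => ∑ i, z i j * s ^ (i : ℕ)) = w := by funext j; rw [hw j]
    rw [h4]
  -- the spaces over `kb`
  obtain ⟨ps, hps⟩ : ∃ ps : Fin (2 * m + 1) → Ω, ps = fun t : Fin (2 * m + 1) =>
    f ^ 2 * s ^ (t : ℕ) := ⟨_, rfl⟩
  have hpsind : LinearIndependent kb ps := by
    rw [Fintype.linearIndependent_iff]
    intro g hg
    obtain ⟨Q, hQ⟩ : ∃ Q : Polynomial kb, Q = ∑ t : Fin (2 * m + 1),
        Polynomial.C (g t) * Polynomial.X ^ (t : ℕ) := ⟨_, rfl⟩
    have h1 : Polynomial.aeval s Q = 0 := by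
      have h2 : f ^ 2 * Polynomial.aeval s Q = 0 := by
        rw [← hg, hQ, map_sum, Finset.mul_sum]
        refine Finset.sum_congr rfl fun t _ => ?_
        rw [hps, map_mul, Polynomial.aeval_C, map_pow, Polynomial.aeval_X, Algebra.smul_def]
        ring
      exact (mul_eq_zero.1 h2).resolve_left (pow_ne_zero 2 hf)
    have h3 := hst Q h1
    intro t
    have h4 : Q.coeff t = g t := by
      rw [hQ, Polynomial.finsetSum_coeff]
      rw [Finset.sum_eq_single t]
      · rw [Polynomial.coeff_C_mul, Polynomial.coeff_X_pow, if_pos rfl, mul_one]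
      · intro b _ hb
        rw [Polynomial.coeff_C_mul, Polynomial.coeff_X_pow,
          if_neg (fun h => hb (Fin.ext h.symm)), mul_zero]
      · intro h; exact absurd (Finset.mem_univ _) h
    rw [← h4, h3, Polynomial.coeff_zero]
  have hle1 : Submodule.span kb (Set.range fun a : Mon (m + 1) 2 => mv 2 yy a) ≤
      Submodule.span kb (Set.range ps) := by
    rw [Submodule.span_le]
    rintro _ ⟨a, rfl⟩
    have h1 : mv 2 yy a = f ^ 2 * Polynomial.aeval s (resC z' (mono kb a.1)) := by
      rw [hyw, mv_smul, hresC]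
      unfold mono
      rw [map_monomial, map_one]
      rw [show (monomial (fs a.1)) (1 : Ω) = mono Ω a.1 from rfl, eval_mono]
      rfl
    have h2 := natDegree_resC_mono z' a
    show mv 2 yy a ∈ _
    rw [h1, Polynomial.aeval_eq_sum_range' (n := 2 * m + 1) (by rw [mul_comm] at h2; omega),
      Finset.mul_sum, Finset.sum_range]
    refine Submodule.sum_mem _ fun t _ => ?_
    rw [mul_smul_comm]
    refine Submodule.smul_mem _ _ (Submodule.subset_span ⟨t, ?_⟩)
    rw [hps]
  have hfs : ∀ i : Fin (m + 1), ∃ c : Fin (m + 1) → kb,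
      f * s ^ (i : ℕ) = ∑ j, (c j : Ω) * yy j := by
    intro i
    have hdet : IsUnit (Matrix.of z').det := by
      rw [isUnit_iff_ne_zero]
      intro h0
      have h1 : (Matrix.of z).det = 0 := by
        have h2 : (Matrix.of z) = (Matrix.of z').map (algebraMap kb Ω) := by
          ext i j
          simp only [Matrix.map_apply, Matrix.of_apply]
          exact (hz' i j).symm
        rw [h2, ← RingHom.mapMatrix_apply, ← RingHom.map_det, h0, map_zero]
      have h3 : IsUnit (Matrix.of z) :=
        Matrix.linearIndependent_rows_iff_isUnit.1 hind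
      rw [Matrix.isUnit_iff_isUnit_det] at h3
      exact h3.ne_zero h1
    obtain ⟨Zi, hZi⟩ : ∃ Zi : Matrix (Fin (m + 1)) (Fin (m + 1)) kb, Zi = (Matrix.of z')⁻¹ :=
      ⟨_, rfl⟩
    have hmul : (Matrix.of z') * Zi = 1 := by
      rw [hZi]; exact Matrix.mul_nonsing_inv _ hdet
    refine ⟨fun j => Zi j i, ?_⟩
    have h1 : ∀ l : Fin (m + 1), ∑ j, z l j * (Zi j i : Ω) = if l = i then 1 else 0 := by
      intro l
      have h2 := congrArg (fun A : Matrix _ _ kb => ((A l i : kb) : Ω)) hmul
      simp only [Matrix.mul_apply, Matrix.of_apply, Matrix.one_apply] at h2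
      have h3 : (((∑ j, z' l j * Zi j i : kb)) : Ω) = ∑ j, z l j * (Zi j i : Ω) := by
        rw [show ((∑ j, z' l j * Zi j i : kb) : Ω) = algebraMap kb Ω (∑ j, z' l j * Zi j i)
          from rfl, map_sum]
        refine Finset.sum_congr rfl fun j _ => ?_
        rw [map_mul, ← hz' l j]
        rfl
      rw [← h3, h2]
      split_ifs <;> rfl
    calc f * s ^ (i : ℕ) = f * ∑ l : Fin (m + 1), (if l = i then 1 else 0) * s ^ (l : ℕ) := by
          simp
      _ = f * ∑ l : Fin (m + 1), (∑ j, z l j * (Zi j i : Ω)) * s ^ (l : ℕ) := by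
          simp only [h1]
      _ = ∑ j, (Zi j i : Ω) * yy j := by
          simp only [hyw, hw, Finset.sum_mul, Finset.mul_sum]
          rw [Finset.sum_comm]
          refine Finset.sum_congr rfl fun j _ => Finset.sum_congr rfl fun l _ => ?_
          ring
  have hle2 : Submodule.span kb (Set.range ps) ≤
      Submodule.span kb (Set.range fun a : Mon (m + 1) 2 => mv 2 yy a) := by
    rw [Submodule.span_le]
    rintro _ ⟨t, rfl⟩
    obtain ⟨i, j, hij⟩ : ∃ i j : Fin (m + 1), (i : ℕ) + j = t := by
      have ht := t.2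
      by_cases h : (t : ℕ) ≤ m
      · exact ⟨⟨t, by omega⟩, ⟨0, by omega⟩, by simp⟩
      · exact ⟨⟨m, by omega⟩, ⟨t - m, by omega⟩, by simp; omega⟩
    obtain ⟨c, hc⟩ := hfs i
    obtain ⟨c', hc'⟩ := hfs j
    have h1 : ps t = ∑ i', ∑ j', (c i' * c' j' : kb) • mv 2 yy (ee2 i' j') := by
      have h2 : ps t = (f * s ^ (i : ℕ)) * (f * s ^ (j : ℕ)) := by
        rw [hps]
        show f ^ 2 * s ^ (t : ℕ) = _
        rw [← hij, pow_add]
        ring
      rw [h2, hc, hc', Finset.sum_mul_sum]
      refine Finset.sum_congr rfl fun i' _ => Finset.sum_congr rfl fun j' _ => ?_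
      rw [mv_ee2, Algebra.smul_def, map_mul]
      show (c i' : Ω) * yy i' * ((c' j' : Ω) * yy j') = ((c i' : Ω) * (c' j' : Ω)) * (yy i' * yy j')
      ring
    show ps t ∈ _
    rw [h1]
    exact Submodule.sum_mem _ fun i' _ => Submodule.sum_mem _ fun j' _ =>
      Submodule.smul_mem _ _ (Submodule.subset_span ⟨_, rfl⟩)
  have hfin2 : Module.finrank kb (Submodule.span kb (Set.range fun a : Mon (m + 1) 2 => mv 2 yy a))
      = 2 * m + 1 := by
    rw [le_antisymm hle1 hle2, finrank_span_eq_card hpsind, Fintype.card_fin]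
  -- the space over `k0`
  obtain ⟨φ, hφ⟩ : ∃ φ : (Mon (m + 1) 2 → k0) →ₗ[k0] L,
      φ = Fintype.linearCombination k0 (fun a => mv 2 y a) := ⟨_, rfl⟩
  have hφa : ∀ c, φ c = ∑ a, c a • mv 2 y a := by
    intro c
    rw [hφ, Fintype.linearCombination_apply]
  have hrange : LinearMap.range φ = Submodule.span k0 (Set.range fun a : Mon (m + 1) 2 =>
      mv 2 y a) := by
    rw [hφ, Fintype.range_linearCombination]
  have hrk := LinearMap.finrank_range_add_finrank_ker φ
  rw [Module.finrank_fintype_fun_eq_card] at hrk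
  obtain ⟨d, hd⟩ : ∃ d, d = Module.finrank k0 (LinearMap.range φ) := ⟨_, rfl⟩
  obtain ⟨bs, -⟩ : ∃ bs : Module.Basis (Fin d) k0 (LinearMap.range φ), True :=
    ⟨(Module.finBasisOfFinrankEq k0 (LinearMap.range φ) hd.symm), trivial⟩
  obtain ⟨x, hx⟩ : ∃ x : Fin d → L, x = fun i => ((bs i : LinearMap.range φ) : L) := ⟨_, rfl⟩
  have hxind : LinearIndependent k0 x := by
    have h1 := bs.linearIndependent.map' (Submodule.subtype (LinearMap.range φ))
      (Submodule.ker_subtype _)
    rw [hx]
    exact h1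
  have hxspan : Submodule.span k0 (Set.range x) = LinearMap.range φ := by
    have h1 : Set.range x = (Submodule.subtype (LinearMap.range φ)) '' Set.range bs := by
      rw [← Set.range_comp, hx]
      rfl
    rw [h1, Submodule.span_image, bs.span_eq, Submodule.map_top, Submodule.range_subtype]
  have hxkb : LinearIndependent kb fun i => algebraMap L Ω (x i) := by
    rw [Fintype.linearIndependent_iff]
    intro g hg i
    have h1 := hLDJ k0 L Ω hcl (Fin d) x (fun i => (g i : Ω)) (fun i => (hmem _).1 (g i).2)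
      (by
        rw [← hg]
        refine Finset.sum_congr rfl fun i _ => ?_
        rw [Algebra.smul_def, mul_comm]
        rfl) hxind i
    exact Subtype.ext h1
  have hspaneq : Submodule.span kb (Set.range fun i => algebraMap L Ω (x i)) =
      Submodule.span kb (Set.range fun a : Mon (m + 1) 2 => mv 2 yy a) := by
    have hmv : ∀ a : Mon (m + 1) 2, mv 2 yy a = algebraMap L Ω (mv 2 y a) := by
      intro a
      rw [hyy, mv_map]
    apply le_antisymm
    · rw [Submodule.span_le]
      rintro _ ⟨i, rfl⟩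
      have h1 : x i ∈ Submodule.span k0 (Set.range fun a : Mon (m + 1) 2 => mv 2 y a) := by
        rw [← hrange, ← hxspan]
        exact Submodule.subset_span ⟨i, rfl⟩
      have h2 := span_ext kb _ _ h1
      simp only [hmv]
      exact h2
    · rw [Submodule.span_le]
      rintro _ ⟨a, rfl⟩
      have h1 : mv 2 y a ∈ Submodule.span k0 (Set.range x) := by
        rw [hxspan, hrange]
        exact Submodule.subset_span ⟨a, rfl⟩
      have h2 := span_ext kb _ _ h1
      show mv 2 yy a ∈ _
      rw [hmv]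
      exact h2
  have hd2 : d = 2 * m + 1 := by
    rw [← hfin2, ← hspaneq, finrank_span_eq_card hxkb, Fintype.card_fin]
  obtain ⟨M, hM⟩ : ∃ M, M = Module.finrank k0 (LinearMap.ker φ) := ⟨_, rfl⟩
  obtain ⟨bk, -⟩ : ∃ bk : Module.Basis (Fin M) k0 (LinearMap.ker φ), True :=
    ⟨(Module.finBasisOfFinrankEq k0 (LinearMap.ker φ) hM.symm), trivial⟩
  refine ⟨M, fun l => ((bk l : LinearMap.ker φ) : Mon (m + 1) 2 → k0), ?_, ?_, ?_⟩
  · rw [← hd, ← hM, hd2] at hrk
    omega
  · exact bk.linearIndependent.map' (Submodule.subtype (LinearMap.ker φ))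
      (Submodule.ker_subtype _)
  · intro l
    obtain ⟨q, hq⟩ : ∃ q : Mon (m + 1) 2 → k0, q = ((bk l : LinearMap.ker φ) :
      Mon (m + 1) 2 → k0) := ⟨_, rfl⟩
    have hqk : φ q = 0 := by
      rw [hq]; exact (bk l).2
    show resC z (frm fun a => algebraMap k0 Ω (((bk l : LinearMap.ker φ) :
      Mon (m + 1) 2 → k0) a)) = 0
    rw [← hq]
    obtain ⟨G, hG⟩ : ∃ G : MvPolynomial (Fin (m + 1)) kb,
      G = frm fun a => algebraMap k0 kb (q a) := ⟨_, rfl⟩
    have hGm : MvPolynomial.map (algebraMap kb Ω) G = frm fun a => algebraMap k0 Ω (q a) := by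
      rw [hG, map_frm]
      rfl
    have h1 : Polynomial.aeval s (resC z' G) = 0 := by
      rw [hresC, hGm, eval_frm]
      have h2 : f ^ 2 * ∑ a, algebraMap k0 Ω (q a) * mv 2 w a = 0 := by
        calc f ^ 2 * ∑ a, algebraMap k0 Ω (q a) * mv 2 w a
            = ∑ a, algebraMap k0 Ω (q a) * mv 2 yy a := by
              rw [Finset.mul_sum]
              refine Finset.sum_congr rfl fun a _ => ?_
              rw [hyw, mv_smul]
              ring
          _ = algebraMap L Ω (φ q) := by
              rw [hφa, map_sum]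
              refine Finset.sum_congr rfl fun a _ => ?_
              rw [Algebra.smul_def, map_mul, ← IsScalarTower.algebraMap_apply k0 L Ω, hyy, mv_map]
          _ = 0 := by rw [hqk, map_zero]
      exact (mul_eq_zero.1 h2).resolve_left (pow_ne_zero 2 hf)
    have h3 := hst _ h1
    have h4 := resC_map (algebraMap kb Ω) z' G
    have h5 : (fun i j => algebraMap kb Ω (z' i j)) = z := by
      funext i j; exact hz' i j
    rw [h5, hGm, h3, Polynomial.map_zero] at h4
    exact h4

end Pool.Agent.H99.EE
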