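import Pool.Agent.H30.EE.TargetsP
import Pool.Agent.H33.Hilbert
import Pool.Agent.H15.EGH.Dim

set_option autoImplicit false

namespace Pool.Agent.H99.EE

open MvPolynomial SC Pool.Agent.H27.LV Pool.Agent.H17.VG Pool.Agent.H30.EE

variable {K : Type} [Field K]

lemma finrank_Sd2 (j : ℕ) : Module.finrank K (Sd K 2 j) = (j + 2).choose 2 := by
  have := Pool.Agent.H15.EGH.finrank_homog (K := K) (ι := Fin (2 + 1)) j
  simpa using this

lemma finrank_mulW {G : MvPolynomial (Fin (2 + 1)) K} (hG : G ≠ 0)
    (W : Submodule K (MvPolynomial (Fin (2 + 1)) K)) :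
    Module.finrank K (mulW G W) = Module.finrank K W := by
  unfold mulW
  refine (LinearEquiv.finrank_eq (Submodule.equivMapOfInjective _ ?_ W)).symm
  intro x y hxy
  exact mul_left_cancel₀ hG hxy

lemma fin_Sd (j : ℕ) : Module.Finite K (Sd K 2 j) := by
  apply Module.finite_of_finrank_pos
  rw [finrank_Sd2]
  exact Nat.choose_pos (by omega)

theorem pf_KOS : T_KOS := by
  intro K _ a m G G' hG hG' hG0 hG'0 hrel ham
  have hfin : ∀ j, Module.Finite K (Sd K 2 j) := fun j => fin_Sd j
  have hf1 : Module.Finite K (mulW (n := 2) G (Sd K 2 m)) := by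
    unfold mulW
    have := hfin m
    infer_instance
  have hf2 : Module.Finite K (mulW (n := 2) G' (Sd K 2 m)) := by
    unfold mulW
    have := hfin m
    infer_instance
  have h0 := Submodule.finrank_sup_add_finrank_inf_eq (mulW (n := 2) G (Sd K 2 m))
    (mulW (n := 2) G' (Sd K 2 m))
  rw [finrank_mulW hG0, finrank_mulW hG'0, finrank_Sd2] at h0
  rw [finrank_Sd2]
  have hdiv : ∀ A B : MvPolynomial (Fin (2 + 1)) K, G * A = G' * B → ∃ C, A = G' * C := by
    intro A B h
    have h1 : G' ∣ G * A := ⟨B, h⟩
    obtain ⟨C, hC⟩ := hrel.symm.dvd_of_dvd_mul_left h1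
    exact ⟨C, hC⟩
  by_cases hma : a ≤ m
  · have h1 : mulW (n := 2) G (Sd K 2 m) ⊓ mulW (n := 2) G' (Sd K 2 m) =
        mulW (n := 2) (G * G') (Sd K 2 (m - a)) := by
      apply le_antisymm
      · rintro z ⟨⟨A, hA, hAz⟩, ⟨B, hB, hBz⟩⟩
        have hAz' : G * A = z := hAz
        have hBz' : G' * B = z := hBz
        obtain ⟨C, hC⟩ := hdiv A B (hAz'.trans hBz'.symm)
        refine ⟨homogeneousComponent (m - a) C, homogeneousComponent_isHomogeneous _ _, ?_⟩
        have h2 : A = G' * homogeneousComponent (m - a) C := by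
          have h3 := Pool.Agent.H33.homogeneousComponent_mul_of_homog hG' (g := C) (m - a)
          have hA' : A.IsHomogeneous m := hA
          have h4 : homogeneousComponent m A = A := by
            rw [homogeneousComponent_of_mem hA', if_pos rfl]
          rw [← hC] at h3
          have e1 : m - a + a = m := by omega
          rw [e1, h4] at h3
          exact h3
        change G * G' * _ = z
        rw [← hAz', h2, mul_assoc]
      · rintro z ⟨C, hC, rfl⟩
        have hC' : C.IsHomogeneous (m - a) := hC
        refine ⟨⟨G' * C, ?_, ?_⟩, ⟨G * C, ?_, ?_⟩⟩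
        · have := hG'.mul hC'
          rw [show a + (m - a) = m by omega] at this
          exact this
        · change G * (G' * C) = G * G' * C
          ring
        · have := hG.mul hC'
          rw [show a + (m - a) = m by omega] at this
          exact this
        · change G' * (G * C) = G * G' * C
          ring
    rw [h1, finrank_mulW (mul_ne_zero hG0 hG'0), finrank_Sd2] at h0
    obtain ⟨b, rfl⟩ : ∃ b, m = a + b := ⟨m - a, by omega⟩
    rw [show a + b - a = b by omega] at h0
    have c1 := Nat.choose_two_right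
    have q1 : ∀ n : ℕ, 2 * (n + 2).choose 2 = (n + 2) * (n + 1) := by
      intro n
      rw [Nat.choose_two_right, show n + 2 - 1 = n + 1 by omega]
      exact Nat.mul_div_cancel' ((Nat.even_mul_pred_self (n + 2)).two_dvd)
    have e1 := q1 (a + b)
    have e2 := q1 b
    have e3 := q1 (a + b + a)
    nlinarith
  · have h1 : mulW (n := 2) G (Sd K 2 m) ⊓ mulW (n := 2) G' (Sd K 2 m) = ⊥ := by
      rw [eq_bot_iff]
      rintro z ⟨⟨A, hA, hAz⟩, ⟨B, hB, hBz⟩⟩
      have hAz' : G * A = z := hAz
      have hBz' : G' * B = z := hBz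
      obtain ⟨C, hC⟩ := hdiv A B (hAz'.trans hBz'.symm)
      have hA' : A.IsHomogeneous m := hA
      have h4 : homogeneousComponent m A = A := by
        rw [homogeneousComponent_of_mem hA', if_pos rfl]
      have h3 := Pool.Agent.H33.homogeneousComponent_mul_of_homog_lt hG' (g := C)
        (t := m) (by omega)
      rw [← hC, h4] at h3
      rw [Submodule.mem_bot, ← hAz', h3, mul_zero]
    rw [h1, finrank_bot, add_zero] at h0
    have q1 : ∀ n : ℕ, 2 * (n + 2).choose 2 = (n + 2) * (n + 1) := by
      intro n
      rw [Nat.choose_two_right, show n + 2 - 1 = n + 1 by omega]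
      exact Nat.mul_div_cancel' ((Nat.even_mul_pred_self (n + 2)).two_dvd)
    have e1 := q1 m
    have e3 := q1 (m + a)
    have : m + 1 = a ∨ m + 2 = a := by omega
    rcases this with rfl | rfl
    · nlinarith
    · nlinarith

end Pool.Agent.H99.EE
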